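import Pool.Agent.Run7.h852.DN.Bridge
import Pool.Agent.Run7.h852.DN.Low
import Pool.Agent.Run7.h781.DN_INF
import Pool.Agent.Run7.h930.DN_PTW
import Pool.Agent.Run7.h930.DN_RAD
import Pool.Agent.Run7.h930.DN_SURJ
import Pool.Agent.Run7.h956.DN_PUSH

/-!
# The nonwandering set of the `N`-body problem has density zero on the energy surface

`N = n + 1 ≥ 3` bodies, `E < 0`, `φ` any complete flow on `H = E` obtained from the reduced `N`-body
flow by a smooth positive change of time. Among the configurations with all distances at most `R` and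
kinetic energy (on `H = E`) at most `K₀`, the energy surface has Liouville measure at least
`c R ^ (3 (n - 1))`, and its nonwandering part at most `C R ^ (3 n - 9 / 2)`: the proportion of the
nonwandering points is `O(R ^ (-3 / 2))` as `R → ∞`. For three and four bodies the bound
`C R ^ (3 n - 9 / 2)` holds without the restriction to `K ≤ K₀`; for four bodies the whole energy
surface has infinite measure over the configurations with distances at most `R`, for every `R > 0`
(near binary collisions), so the nonwandering part is finite in an infinite measure.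

Idea of the proof. Over a configuration `Q` let `a, b` be a closest pair (at a distance
`r ≤ r₀`, because `U > |E|`) and `δ` the smallest of the other distances. The starting result
`NonwanderingProportion` bounds the proportion of nonwandering momenta by `(C / (δ K)) ^ (3 / 2)`; the
Liouville density of the fibre is `K ^ ((3 n - 2) / 2)`. So the measure is bounded by the sum, over two
different pairs of bodies, of the integrals of `K ^ ((3 n - 5) / 2) δ ^ (-3 / 2)` over
`r ≤ r₀`, `δ ≤ R`, and `K ≤ C / r`. The difference vectors of two different pairs are independent, so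
this is at most `R ^ (3 n - 6) · R ^ (3 / 2)` times a constant. From below: one pair at a distance
for which `K₀ / 4 ≤ K ≤ K₀`, the other bodies anywhere far apart.
-/

set_option autoImplicit false

open MeasureTheory

namespace Pool.Agent.Results.MP_70f7a7_an.DensityZero

/-- The space `R³`. -/
abbrev R3 : Type := EuclideanSpace ℝ (Fin 3)

/-- Phase space: pairs (positions, momenta) of `N` bodies. -/
abbrev Phase (N : ℕ) : Type := (Fin N → R3) × (Fin N → R3)

/-- Kinetic energy of the momenta `p`. -/
noncomputable def kinetic {N : ℕ} (m : Fin N → ℝ) (p : Fin N → R3) : ℝ :=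
  ∑ i, ‖p i‖ ^ 2 / (2 * m i)

/-- The Newtonian potential `U(q) = ∑_{i<j} m_i m_j / |q_i - q_j|` (the energy is
kinetic energy minus `U`). -/
noncomputable def potential {N : ℕ} (m : Fin N → ℝ) (q : Fin N → R3) : ℝ :=
  ∑ i, ∑ j, m i * m j / ‖q i - q j‖ / 2

/-- The energy surface `H = E` of the reduced `N`-body problem (centre of mass `0`, total
momentum `0`, no collisions). -/
def surface {N : ℕ} (m : Fin N → ℝ) (E : ℝ) : Set (Phase N) :=
  {x | (∀ i j, i ≠ j → x.1 i ≠ x.1 j) ∧ ∑ i, m i • x.1 i = 0 ∧ ∑ i, x.2 i = 0 ∧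
    kinetic m x.2 - potential m x.1 = E}

/-- `φ` is the complete flow on the energy surface obtained from the `N`-body flow by a smooth
positive change of time `ψ`. -/
structure IsReparametrizedFlow {N : ℕ} (m : Fin N → ℝ) (E : ℝ) (ψ : Phase N → ℝ)
    (φ : ℝ → Phase N → Phase N) : Prop where
  /-- `ψ` is smooth outside collisions -/
  smooth : ContDiffOn ℝ ((⊤ : ℕ∞) : WithTop ℕ∞) ψ {x | ∀ i j, i ≠ j → x.1 i ≠ x.1 j}
  /-- `ψ` is positive outside collisions -/
  pos : ∀ x : Phase N, (∀ i j, i ≠ j → x.1 i ≠ x.1 j) → 0 < ψ x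
  /-- orbits exist for all times and solve the reparametrized equations of motion -/
  flow : ∀ x ∈ surface m E, φ 0 x = x ∧ ∀ t : ℝ, φ t x ∈ surface m E ∧
    HasDerivAt (fun s : ℝ => φ s x)
      (ψ (φ t x) • ((fun i => (m i)⁻¹ • (φ t x).2 i),
        (fun i => ∑ j, (m i * m j / ‖(φ t x).1 j - (φ t x).1 i‖ ^ 3) •
          ((φ t x).1 j - (φ t x).1 i)))) t

/-- `x` is a nonwandering point of the flow `φ` on the energy surface `S`. -/
def IsNonwandering {N : ℕ} (S : Set (Phase N)) (φ : ℝ → Phase N → Phase N) (x : Phase N) : Prop :=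
  ∀ V : Set (Phase N), IsOpen V → x ∈ V → ∀ T : ℝ, ∃ t : ℝ, T < t ∧ ∃ y ∈ V ∩ S, φ t y ∈ V

/-- The momenta `(P_1, ..., P_n, -P_1 - ... - P_n)` of `n + 1` bodies. -/
noncomputable def momenta {n : ℕ} (P : Fin n → R3) : Fin (n + 1) → R3 := Fin.snoc P (-∑ i, P i)

/-- The same momenta scaled so that their kinetic energy is `K`. -/
noncomputable def scaled {n : ℕ} (m : Fin (n + 1) → ℝ) (K : ℝ) (P : Fin n → R3) :
    Fin (n + 1) → R3 :=
  Real.sqrt (K / kinetic m (momenta P)) • momenta P

/-- The positions `(Q_1, ..., Q_n, 0)` of `n + 1` bodies. -/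
noncomputable def place {n : ℕ} (Q : Fin n → R3) : Fin (n + 1) → R3 := Fin.snoc Q 0

/-- The same positions, translated so that the centre of mass is `0`. With these positions and the
momenta `momenta P`, the variables `(Q, P)` are canonical coordinates of the reduced problem. -/
noncomputable def centred {n : ℕ} (m : Fin (n + 1) → ℝ) (Q : Fin n → R3) : Fin (n + 1) → R3 :=
  fun i => place Q i - (∑ k, m k)⁻¹ • ∑ k, m k • place Q k

/-- The kinetic energy `U + E` on the energy surface `H = E` over the configuration `Q`. -/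
noncomputable def kineticOver {n : ℕ} (m : Fin (n + 1) → ℝ) (E : ℝ) (Q : Fin n → R3) : ℝ :=
  potential m (centred m Q) + E

/-- The configurations without collisions and with all distances at most `R`, over which the kinetic
energy on `H = E` is positive. -/
def Configurations {n : ℕ} (m : Fin (n + 1) → ℝ) (E R : ℝ) : Set (Fin n → R3) :=
  {Q | (∀ i j, i ≠ j → place Q i ≠ place Q j) ∧ (∀ i j, ‖place Q i - place Q j‖ ≤ R) ∧
    0 < kineticOver m E Q}

/-- The `P` with kinetic energy at most `1` for which the phase point of energy `E` with configuration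
`Q` and momenta in the direction of `P` belongs to `A`. -/
def fibre {n : ℕ} (m : Fin (n + 1) → ℝ) (E : ℝ) (A : Set (Phase (n + 1))) (Q : Fin n → R3) :
    Set (Fin n → R3) :=
  {P | kinetic m (momenta P) ≤ 1 ∧ (centred m Q, scaled m (kineticOver m E Q) P) ∈ A}

/-- The Liouville measure `δ(H - E) dQ dP` of the part of the energy surface in `A` and over the
configurations in `B`, up to the constant factor `3 n / 2`. (For fixed `Q` with `K = U + E > 0` the
integral of `δ(|P|² - K)` over the directions in `A` is the derivative of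
`s ^ (3 n / 2) · volume (fibre)` at `s = K`, where `|P|²` is the kinetic energy.) -/
noncomputable def liouville {n : ℕ} (m : Fin (n + 1) → ℝ) (E : ℝ) (B : Set (Fin n → R3))
    (A : Set (Phase (n + 1))) : ENNReal :=
  ∫⁻ Q in B, ENNReal.ofReal (kineticOver m E Q ^ ((3 * (n : ℝ) - 2) / 2)) *
    volume (fibre m E A Q)

theorem isFl {N : ℕ} {m : Fin N → ℝ} {E : ℝ} {ψ : Phase N → ℝ} {φ : ℝ → Phase N → Phase N}
    (h : IsReparametrizedFlow m E ψ φ) : Pool.Agent.Y516.NW.IsFl m E ψ φ :=
  ⟨h.smooth.continuousOn, h.pos, h.flow⟩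

/-- Let `N = n + 1 ≥ 3`, `m` positive masses and `E < 0`.

(1) For every `K₀ > 0` there are `C, c, R₁ > 0` such that for all `R ≥ R₁`, over the configurations
with distances at most `R` and kinetic energy at most `K₀` on `H = E`, the energy surface has Liouville
measure at least `c R ^ (3 (n - 1))`, and for every complete reparametrized flow the set of the
nonwandering points has measure at most `C R ^ (3 n - 9 / 2)`, and at most `C R ^ (-3 / 2)` times the
measure of the energy surface.

(2) For three and four bodies the same bounds of the nonwandering set hold without the restriction of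
the kinetic energy, the first one for every `R > 0`.

(3) For four and more bodies the energy surface has infinite Liouville measure over the configurations
with distances at most `R`, for every `R > 0`. -/
theorem result (n : ℕ) (hn : 2 ≤ n) (m : Fin (n + 1) → ℝ) (hm : ∀ i, 0 < m i) (E : ℝ)
    (hE : E < 0) :
    (∀ K₀ : ℝ, 0 < K₀ → ∃ C c R₁ : ℝ, 0 < C ∧ 0 < c ∧ 0 < R₁ ∧ ∀ R : ℝ, R₁ ≤ R →
      ENNReal.ofReal (c * R ^ (3 * (n - 1))) ≤
        liouville m E (Configurations m E R ∩ {Q | kineticOver m E Q ≤ K₀}) (surface m E) ∧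
      ∀ (ψ : Phase (n + 1) → ℝ) (φ : ℝ → Phase (n + 1) → Phase (n + 1)),
        IsReparametrizedFlow m E ψ φ →
        liouville m E (Configurations m E R ∩ {Q | kineticOver m E Q ≤ K₀})
            {x | IsNonwandering (surface m E) φ x} ≤
          ENNReal.ofReal (C * R ^ (3 * (n : ℝ) - 9 / 2)) ∧
        liouville m E (Configurations m E R ∩ {Q | kineticOver m E Q ≤ K₀})
            {x | IsNonwandering (surface m E) φ x} ≤
          ENNReal.ofReal (C * R ^ (-(3 / 2) : ℝ)) *
            liouville m E (Configurations m E R ∩ {Q | kineticOver m E Q ≤ K₀}) (surface m E)) ∧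
    (n ≤ 3 → ∃ C R₁ : ℝ, 0 < C ∧ 0 < R₁ ∧
      ∀ (ψ : Phase (n + 1) → ℝ) (φ : ℝ → Phase (n + 1) → Phase (n + 1)),
        IsReparametrizedFlow m E ψ φ →
        (∀ R : ℝ, 0 < R →
          liouville m E (Configurations m E R) {x | IsNonwandering (surface m E) φ x} ≤
            ENNReal.ofReal (C * R ^ (3 * (n : ℝ) - 9 / 2))) ∧
        ∀ R : ℝ, R₁ ≤ R →
          liouville m E (Configurations m E R) {x | IsNonwandering (surface m E) φ x} ≤
            ENNReal.ofReal (C * R ^ (-(3 / 2) : ℝ)) *
              liouville m E (Configurations m E R) (surface m E)) ∧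
    (3 ≤ n → ∀ R : ℝ, 0 < R → liouville m E (Configurations m E R) (surface m E) = ⊤) := by
  refine ⟨fun K₀ hK₀ => ?_, fun hn3 => ?_, fun hn3 R hR => ?_⟩
  · obtain ⟨C, c, R₁, hC, hc, hR₁, h⟩ := Run7.h852.DN.density Run7.h930.DN.SURJ.t_SURJ
      Pool.Agent.Run7.h956.DN.t_PUSH Run7.h930.DN.RAD.t_RAD Run7.h930.DN.PTW.t_PTW
      Run7.h852.DN.low hn m hm E hE K₀ hK₀
    exact ⟨C, c, R₁, hC, hc, hR₁, fun R hR => ⟨(h R hR).1, fun ψ φ hφ => (h R hR).2 ψ φ (isFl hφ)⟩⟩
  · obtain ⟨C, R₁, hC, hR₁, h⟩ := Run7.h852.DN.density_all Run7.h930.DN.SURJ.t_SURJ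
      Pool.Agent.Run7.h956.DN.t_PUSH Run7.h930.DN.RAD.t_RAD Run7.h930.DN.PTW.t_PTW
      Run7.h852.DN.low hn hn3 m hm E hE
    exact ⟨C, R₁, hC, hR₁, fun ψ φ hφ => h ψ φ (isFl hφ)⟩
  · exact Run7.h781.DN.t_DN_INF n hn3 m hm E hE R hR

end Pool.Agent.Results.MP_70f7a7_an.DensityZero
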