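import Pool.Agent.Run7.h852.NW.Main
import Pool.Agent.Run7.h811.NB.PAIR
import Pool.Agent.Run7.h811.NB.ELL
import Pool.Agent.Run7.h842.NB_INV
import Pool.Agent.Run7.h961.NB_FIN

/-!
# Hyperbolic-elliptic motions of `N` bodies with any number of binaries are wandering

The `N ≥ 3` bodies are grouped in clusters of at most two bodies (an involution `σ` of the bodies; the
clusters are the sets `{i, σ i}`). If in the future or in the past the clusters separate linearly in
the Newtonian time while the two bodies of each binary stay at bounded distance, then the phase point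
is wandering for every complete reparametrized flow on its energy surface. There is also a
criterion at one instant, with constants that depend only on the total mass.

Idea of the proof. If the clusters are far apart (`δ`), fast (`w`) and receding, and the binaries
are bound tightly (energy at most `-κ` per unit of reduced mass), `w² δ` and `κ δ` large, then a
bootstrap argument shows that the clusters move almost freely for all future times, uniformly in a
neighbourhood: the change of the velocities of their centres is controlled by the integral of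
`1 / distance²`, and the change of the energy of EACH binary by the tidal work, which is at most
`2 Mp / √κ` times the integral of `1 / distance³` since `|r'| |r|` is bounded on bound Kepler
motions, collisions included. (The starting results `NonwanderingMomenta` and
`NonwanderingProportion` treat one close pair, which is kept together by the conservation of the
total energy.) Then a linear function of the positions grows along all nearby orbits. For the final
motions: the velocities of the centres converge to different limits, the energies of the pairs are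
eventually negative (Lagrange-Jacobi), so the criterion holds at a late time, and the set of
nonwandering points is invariant.
-/

set_option autoImplicit false

open MeasureTheory Filter Topology

namespace Pool.Agent.Results.MP_70f7a7_an.HyperbolicElliptic

/-- The space `R³`. -/
abbrev R3 : Type := EuclideanSpace ℝ (Fin 3)

/-- Phase space: pairs (positions, momenta) of `N` bodies. -/
abbrev Phase (N : ℕ) : Type := (Fin N → R3) × (Fin N → R3)

/-- Kinetic energy of the momenta `p`. -/
noncomputable def kinetic {N : ℕ} (m : Fin N → ℝ) (p : Fin N → R3) : ℝ :=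
  ∑ i, ‖p i‖ ^ 2 / (2 * m i)

/-- The Newtonian potential `U(q) = ∑_{i<j} m_i m_j / |q_i - q_j|` (the energy is
kinetic energy minus `U`). -/
noncomputable def potential {N : ℕ} (m : Fin N → ℝ) (q : Fin N → R3) : ℝ :=
  ∑ i, ∑ j, m i * m j / ‖q i - q j‖ / 2

/-- The energy surface `H = E` of the reduced `N`-body problem (centre of mass `0`, total
momentum `0`, no collisions). -/
def surface {N : ℕ} (m : Fin N → ℝ) (E : ℝ) : Set (Phase N) :=
  {x | (∀ i j, i ≠ j → x.1 i ≠ x.1 j) ∧ ∑ i, m i • x.1 i = 0 ∧ ∑ i, x.2 i = 0 ∧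
    kinetic m x.2 - potential m x.1 = E}

/-- `φ` is the complete flow on the energy surface obtained from the `N`-body flow by a smooth
positive change of time `ψ`. -/
structure IsReparametrizedFlow {N : ℕ} (m : Fin N → ℝ) (E : ℝ) (ψ : Phase N → ℝ)
    (φ : ℝ → Phase N → Phase N) : Prop where
  /-- `ψ` is smooth outside collisions -/
  smooth : ContDiffOn ℝ ((⊤ : ℕ∞) : WithTop ℕ∞) ψ {x | ∀ i j, i ≠ j → x.1 i ≠ x.1 j}
  /-- `ψ` is positive outside collisions -/
  pos : ∀ x : Phase N, (∀ i j, i ≠ j → x.1 i ≠ x.1 j) → 0 < ψ x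
  /-- orbits exist for all times and solve the reparametrized equations of motion -/
  flow : ∀ x ∈ surface m E, φ 0 x = x ∧ ∀ t : ℝ, φ t x ∈ surface m E ∧
    HasDerivAt (fun s : ℝ => φ s x)
      (ψ (φ t x) • ((fun i => (m i)⁻¹ • (φ t x).2 i),
        (fun i => ∑ j, (m i * m j / ‖(φ t x).1 j - (φ t x).1 i‖ ^ 3) •
          ((φ t x).1 j - (φ t x).1 i)))) t

/-- `x` is a nonwandering point of the flow `φ` on the energy surface `S`. -/
def IsNonwandering {N : ℕ} (S : Set (Phase N)) (φ : ℝ → Phase N → Phase N) (x : Phase N) : Prop :=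
  ∀ V : Set (Phase N), IsOpen V → x ∈ V → ∀ T : ℝ, ∃ t : ℝ, T < t ∧ ∃ y ∈ V ∩ S, φ t y ∈ V

/-- The velocities of the bodies. -/
noncomputable def velocity {N : ℕ} (m : Fin N → ℝ) (x : Phase N) : Fin N → R3 :=
  fun i => (m i)⁻¹ • x.2 i

/-- The centre of mass of the cluster `{i, σ i}`, for the positions (or velocities) `u`. -/
noncomputable def centre {N : ℕ} (m : Fin N → ℝ) (σ : Fin N → Fin N) (u : Fin N → R3)
    (i : Fin N) : R3 :=
  (m i + m (σ i))⁻¹ • (m i • u i + m (σ i) • u (σ i))

/-- The bodies `i` and `j` belong to different clusters. -/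
def Apart {N : ℕ} (σ : Fin N → Fin N) (i j : Fin N) : Prop := i ≠ j ∧ σ i ≠ j

/-- The energy of the relative motion of the bodies `k` and `σ k`, per unit of reduced mass, at the
positions `q` and velocities `v`. -/
noncomputable def pairEnergy {N : ℕ} (m : Fin N → ℝ) (σ : Fin N → Fin N) (q v : Fin N → R3)
    (k : Fin N) : ℝ :=
  ‖v k - v (σ k)‖ ^ 2 / 2 - (m k + m (σ k)) / ‖q k - q (σ k)‖

/-- At the positions `q` and velocities `v` the clusters are at distances at least `δ`, have
relative speeds at least `w` and are receding from each other, and the energies of the binaries are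
at most `-κ`. -/
structure Receding {N : ℕ} (m : Fin N → ℝ) (σ : Fin N → Fin N) (w δ κ : ℝ)
    (q v : Fin N → R3) : Prop where
  far : ∀ i j, Apart σ i j → δ ≤ ‖centre m σ q i - centre m σ q j‖
  fast : ∀ i j, Apart σ i j → w ≤ ‖centre m σ v i - centre m σ v j‖
  recede : ∀ i j, Apart σ i j →
    0 ≤ inner ℝ (centre m σ q i - centre m σ q j) (centre m σ v i - centre m σ v j)
  bound : ∀ k, σ k ≠ k → pairEnergy m σ q v k ≤ -κ

/-- The Newtonian time along the orbit of `x`. -/
noncomputable def newtonTime {N : ℕ} (ψ : Phase N → ℝ) (φ : ℝ → Phase N → Phase N) (x : Phase N)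
    (t : ℝ) : ℝ :=
  ∫ s in (0:ℝ)..t, ψ (φ s x)

/-- The future motion of `x` is hyperbolic-elliptic with the clusters `{i, σ i}`: the Newtonian time
tends to infinity, the distances between bodies of different clusters grow at least linearly in it,
and the distances inside of the clusters are bounded. -/
structure HyperbolicEllipticFuture {N : ℕ} (σ : Fin N → Fin N) (ψ : Phase N → ℝ)
    (φ : ℝ → Phase N → Phase N) (x : Phase N) : Prop where
  time : Tendsto (newtonTime ψ φ x) atTop atTop
  apart : ∀ i j, Apart σ i j → ∃ a > 0, ∀ᶠ t in atTop,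
    a * newtonTime ψ φ x t ≤ ‖(φ t x).1 i - (φ t x).1 j‖
  pairs : ∀ i, ∃ R : ℝ, ∀ᶠ t in atTop, ‖(φ t x).1 i - (φ t x).1 (σ i)‖ ≤ R

/-- The past motion of `x` is hyperbolic-elliptic with the clusters `{i, σ i}`. -/
structure HyperbolicEllipticPast {N : ℕ} (σ : Fin N → Fin N) (ψ : Phase N → ℝ)
    (φ : ℝ → Phase N → Phase N) (x : Phase N) : Prop where
  time : Tendsto (newtonTime ψ φ x) atBot atBot
  apart : ∀ i j, Apart σ i j → ∃ a > 0, ∀ᶠ t in atBot,
    a * -newtonTime ψ φ x t ≤ ‖(φ t x).1 i - (φ t x).1 j‖
  pairs : ∀ i, ∃ R : ℝ, ∀ᶠ t in atBot, ‖(φ t x).1 i - (φ t x).1 (σ i)‖ ≤ R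

theorem isFl {N : ℕ} {m : Fin N → ℝ} {E : ℝ} {ψ : Phase N → ℝ} {φ : ℝ → Phase N → Phase N}
    (h : IsReparametrizedFlow m E ψ φ) : Pool.Agent.Y516.NW.IsFl m E ψ φ :=
  ⟨h.smooth.continuousOn, h.pos, h.flow⟩

theorem rec_of {N : ℕ} {m : Fin N → ℝ} {σ : Fin N → Fin N} {w δ κ : ℝ} {q v : Fin N → R3}
    (h : Receding m σ w δ κ q v) : Run7.h852.NW.Rec m σ w δ κ q v :=
  ⟨h.far, h.fast, h.recede, h.bound⟩

theorem criterion {N : ℕ} (hN : 3 ≤ N) {m : Fin N → ℝ} (hm : ∀ i, 0 < m i) {E : ℝ}
    {ψ : Phase N → ℝ} {φ : ℝ → Phase N → Phase N} (hφ : IsReparametrizedFlow m E ψ φ)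
    {σ : Fin N → Fin N} (hσ : ∀ i, σ (σ i) = i) {x : Phase N} (hx : x ∈ surface m E)
    (w δ κ : ℝ) (hw : 0 < w) (hδ : 0 < δ) (hκ : 0 < κ)
    (h1 : 32000 * ∑ i, m i ≤ w ^ 2 * δ) (h2 : 400 * ∑ i, m i ≤ κ * δ)
    (h : Receding m σ w δ κ x.1 (velocity m x) ∨
      Receding m σ w δ κ x.1 (fun i => -velocity m x i)) :
    ¬ IsNonwandering (surface m E) φ x :=
  Run7.h852.NW.criterion Run7.h811.NB.t_PAIR hN m hm σ hσ E ψ φ (isFl hφ) x hx w δ κ hw hδ hκ h1 h2
    (h.imp rec_of rec_of)

theorem centre_inv {N : ℕ} (m : Fin N → ℝ) {σ : Fin N → Fin N} (hσ : ∀ i, σ (σ i) = i)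
    (u : Fin N → R3) (i : Fin N) : centre m σ u (σ i) = centre m σ u i :=
  Run7.h852.NW.cm_inv m hσ u i

/-- two clusters: the direction does not matter -/
theorem two_clusters {N : ℕ} (hN : 3 ≤ N) {m : Fin N → ℝ} (hm : ∀ i, 0 < m i) {E : ℝ}
    {ψ : Phase N → ℝ} {φ : ℝ → Phase N → Phase N} (hφ : IsReparametrizedFlow m E ψ φ)
    {σ : Fin N → Fin N} (hσ : ∀ i, σ (σ i) = i) {x : Phase N} (hx : x ∈ surface m E)
    (i j : Fin N) (hij : ∀ k, k = i ∨ k = σ i ∨ k = j ∨ k = σ j)
    (h1 : 32000 * ∑ k, m k ≤ ‖centre m σ (velocity m x) i - centre m σ (velocity m x) j‖ ^ 2 *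
      ‖centre m σ x.1 i - centre m σ x.1 j‖)
    (h2 : ∀ k, σ k ≠ k → 400 * ∑ l, m l ≤
      -pairEnergy m σ x.1 (velocity m x) k * ‖centre m σ x.1 i - centre m σ x.1 j‖) :
    ¬ IsNonwandering (surface m E) φ x := by
  have hM : 0 < ∑ k, m k := Finset.sum_pos (fun k _ => hm k) ⟨i, Finset.mem_univ _⟩
  have key : ∀ k l, Apart σ k l → ∀ u : Fin N → R3,
      centre m σ u k - centre m σ u l = centre m σ u i - centre m σ u j ∨
      centre m σ u k - centre m σ u l = -(centre m σ u i - centre m σ u j) := by
    intro k l hkl u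
    have hk : centre m σ u k = centre m σ u i ∧ (l = j ∨ l = σ j) ∨
        centre m σ u k = centre m σ u j ∧ (l = i ∨ l = σ i) := by
      rcases hij k with hk | hk | hk | hk
      · left
        refine ⟨by rw [hk], ?_⟩
        rcases hij l with h | h | h | h
        · exact absurd (hk.trans h.symm) hkl.1
        · exact absurd (by rw [hk, h]) hkl.2
        · exact Or.inl h
        · exact Or.inr h
      · left
        refine ⟨by rw [hk, centre_inv m hσ], ?_⟩
        rcases hij l with h | h | h | h
        · exact absurd (by rw [hk, hσ, h]) hkl.2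
        · exact absurd (hk.trans h.symm) hkl.1
        · exact Or.inl h
        · exact Or.inr h
      · right
        refine ⟨by rw [hk], ?_⟩
        rcases hij l with h | h | h | h
        · exact Or.inl h
        · exact Or.inr h
        · exact absurd (hk.trans h.symm) hkl.1
        · exact absurd (by rw [hk, h]) hkl.2
      · right
        refine ⟨by rw [hk, centre_inv m hσ], ?_⟩
        rcases hij l with h | h | h | h
        · exact Or.inl h
        · exact Or.inr h
        · exact absurd (by rw [hk, hσ, h]) hkl.2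
        · exact absurd (hk.trans h.symm) hkl.1
    rcases hk with ⟨e, h | h⟩ | ⟨e, h | h⟩
    · left; rw [e, h]
    · left; rw [e, h, centre_inv m hσ]
    · right; rw [e, h, neg_sub]
    · right; rw [e, h, centre_inv m hσ, neg_sub]
  have keyn : ∀ k l, Apart σ k l → ∀ u : Fin N → R3,
      ‖centre m σ u k - centre m σ u l‖ = ‖centre m σ u i - centre m σ u j‖ := by
    intro k l hkl u
    rcases key k l hkl u with h | h
    · rw [h]
    · rw [h, norm_neg]
  -- signs agree for positions and velocities
  have keyi : ∀ k l, Apart σ k l → ∀ u u' : Fin N → R3,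
      inner ℝ (centre m σ u k - centre m σ u l) (centre m σ u' k - centre m σ u' l) =
        inner ℝ (centre m σ u i - centre m σ u j) (centre m σ u' i - centre m σ u' j) := by
    intro k l hkl u u'
    have hk : (∀ u : Fin N → R3, centre m σ u k - centre m σ u l =
        centre m σ u i - centre m σ u j) ∨ (∀ u : Fin N → R3, centre m σ u k - centre m σ u l =
        -(centre m σ u i - centre m σ u j)) := by
      rcases hij k with hk | hk | hk | hk <;> rcases hij l with hl | hl | hl | hl
      · exact absurd (hk.trans hl.symm) hkl.1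
      · exact absurd (by rw [hk, hl]) hkl.2
      · left; intro u; rw [hk, hl]
      · left; intro u; rw [hk, hl, centre_inv m hσ]
      · exact absurd (by rw [hk, hσ, hl]) hkl.2
      · exact absurd (hk.trans hl.symm) hkl.1
      · left; intro u; rw [hk, hl, centre_inv m hσ]
      · left; intro u; rw [hk, hl, centre_inv m hσ, centre_inv m hσ]
      · right; intro u; rw [hk, hl, neg_sub]
      · right; intro u; rw [hk, hl, centre_inv m hσ, neg_sub]
      · exact absurd (hk.trans hl.symm) hkl.1
      · exact absurd (by rw [hk, hl]) hkl.2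
      · right; intro u; rw [hk, hl, centre_inv m hσ, neg_sub]
      · right; intro u; rw [hk, hl, centre_inv m hσ, centre_inv m hσ, neg_sub]
      · exact absurd (by rw [hk, hσ, hl]) hkl.2
      · exact absurd (hk.trans hl.symm) hkl.1
    rcases hk with h | h
    · rw [h, h]
    · rw [h, h, inner_neg_neg]
  obtain ⟨s, hs⟩ : ∃ s, s = ‖centre m σ (velocity m x) i - centre m σ (velocity m x) j‖ := ⟨_, rfl⟩
  obtain ⟨d, hd⟩ : ∃ d, d = ‖centre m σ x.1 i - centre m σ x.1 j‖ := ⟨_, rfl⟩
  rw [← hs, ← hd] at h1
  have hs0 : 0 ≤ s := by rw [hs]; exact norm_nonneg _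
  have hd0 : 0 ≤ d := by rw [hd]; exact norm_nonneg _
  have hsd : 0 < s ^ 2 * d := lt_of_lt_of_le (by positivity) h1
  have hsp : 0 < s := by
    rcases hs0.lt_or_eq with h | h
    · exact h
    · rw [← h] at hsd; norm_num at hsd
  have hdp : 0 < d := by
    rcases hd0.lt_or_eq with h | h
    · exact h
    · rw [← h] at hsd; norm_num at hsd
  have hneg : ∀ u : Fin N → R3, ∀ k, centre m σ (fun l => -u l) k = -centre m σ u k := by
    intro u k
    unfold centre
    rw [smul_neg, smul_neg, ← neg_add, smul_neg]
  have hpe : ∀ k, pairEnergy m σ x.1 (fun l => -velocity m x l) k =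
      pairEnergy m σ x.1 (velocity m x) k := by
    intro k
    unfold pairEnergy
    rw [neg_sub_neg, norm_sub_rev]
  have hb : ∀ k, σ k ≠ k → pairEnergy m σ x.1 (velocity m x) k ≤ -(400 * ∑ l, m l / d) := by
    intro k hk
    have h3 := h2 k hk
    rw [← hd] at h3
    have h4 : 400 * ∑ l, m l / d = (400 * ∑ l, m l) / d := by
      rw [← Finset.sum_div, mul_div_assoc]
    have h5 : (400 * ∑ l, m l) / d ≤ -pairEnergy m σ x.1 (velocity m x) k := by
      rw [div_le_iff₀ hdp]; exact h3
    rw [h4]
    linarith
  have hκd : 400 * ∑ l, m l ≤ (400 * ∑ l, m l / d) * d := by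
    rw [← Finset.sum_div, mul_assoc, div_mul_cancel₀ _ hdp.ne']
  have hκ0 : 0 < 400 * ∑ l, m l / d := by
    rw [← Finset.sum_div]; positivity
  refine criterion hN hm hφ hσ hx s d (400 * ∑ l, m l / d) hsp hdp hκ0 h1 hκd ?_
  rcases le_total 0 (inner ℝ (centre m σ x.1 i - centre m σ x.1 j)
      (centre m σ (velocity m x) i - centre m σ (velocity m x) j)) with hi | hi
  · left
    refine ⟨fun k l hkl => ?_, fun k l hkl => ?_, fun k l hkl => ?_, hb⟩
    · rw [keyn k l hkl, ← hd]
    · rw [keyn k l hkl, ← hs]
    · rw [keyi k l hkl]; exact hi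
  · right
    refine ⟨fun k l hkl => ?_, fun k l hkl => ?_, fun k l hkl => ?_, fun k hk => ?_⟩
    · rw [keyn k l hkl, ← hd]
    · rw [keyn k l hkl, hneg, hneg, neg_sub_neg, norm_sub_rev, ← hs]
    · rw [keyi k l hkl, hneg, hneg]
      have e : -centre m σ (velocity m x) i - -centre m σ (velocity m x) j =
          -(centre m σ (velocity m x) i - centre m σ (velocity m x) j) := by abel
      rw [e, inner_neg_right]
      linarith
    · rw [hpe k]; exact hb k hk

/-- Let `N ≥ 3`, let `φ` be a complete flow obtained from the `N`-body flow on `H = E` by a smooth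
positive change of time, and let the bodies be grouped in clusters `{i, σ i}` of at most two bodies.
(1) Every point whose future or past motion is hyperbolic-elliptic with these clusters is wandering.
(2) Criterion at one instant: a point at which the clusters are far apart, fast and receding (or
approaching, i.e. receding for the reversed velocities) and the binaries are tightly bound,
`32000 M ≤ w² δ` and `400 M ≤ κ δ` where `M` is the total mass, is wandering.
(3) If there are just two clusters (three bodies with one binary, or four bodies with two binaries)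
the direction of their relative velocity does not matter: if the point is nonwandering then
`w² d < 32000 M` for the relative speed `w` and the distance `d` of the two centres, or some binary
has an energy greater than `-400 M / d`. -/
theorem result (N : ℕ) (hN : 3 ≤ N) (m : Fin N → ℝ) (hm : ∀ i, 0 < m i) (E : ℝ)
    (ψ : Phase N → ℝ) (φ : ℝ → Phase N → Phase N) (hφ : IsReparametrizedFlow m E ψ φ)
    (σ : Fin N → Fin N) (hσ : ∀ i, σ (σ i) = i) (x : Phase N) (hx : x ∈ surface m E) :
    (HyperbolicEllipticFuture σ ψ φ x ∨ HyperbolicEllipticPast σ ψ φ x →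
      ¬ IsNonwandering (surface m E) φ x) ∧
    (∀ w δ κ : ℝ, 0 < w → 0 < δ → 0 < κ → 32000 * ∑ i, m i ≤ w ^ 2 * δ →
      400 * ∑ i, m i ≤ κ * δ →
      (Receding m σ w δ κ x.1 (velocity m x) ∨
        Receding m σ w δ κ x.1 (fun i => -velocity m x i)) →
      ¬ IsNonwandering (surface m E) φ x) ∧
    (∀ i j : Fin N, (∀ k, k = i ∨ k = σ i ∨ k = j ∨ k = σ j) →
      IsNonwandering (surface m E) φ x →
      ‖centre m σ (velocity m x) i - centre m σ (velocity m x) j‖ ^ 2 *
        ‖centre m σ x.1 i - centre m σ x.1 j‖ < 32000 * ∑ k, m k ∨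
      ∃ k, σ k ≠ k ∧ -pairEnergy m σ x.1 (velocity m x) k *
        ‖centre m σ x.1 i - centre m σ x.1 j‖ < 400 * ∑ l, m l) := by
  have hfl := isFl hφ
  have hψ : ContDiffOn ℝ 1 ψ (Pool.Agent.Y516.NW.Free N) :=
    hφ.smooth.of_le (by norm_num)
  have hmot := Run7.h852.NW.time_eq m hm E ψ φ hfl x hx
  refine ⟨?_, fun w δ κ h1 h2 h3 h4 h5 h6 => criterion hN hm hφ hσ hx w δ κ h1 h2 h3 h4 h5 h6,
    fun i j hij hnw => ?_⟩
  · rintro (h | h)
    · exact Run7.h852.NW.future Run7.h811.NB.t_PAIR Run7.h842.NB.t_INV Run7.h811.NB.t_VEL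
        Run7.h811.NB.t_ELL Run7.h961.NB.t_FIN hN m hm σ hσ E ψ φ hfl hψ x hx _ hmot
        ⟨h.time, h.apart, h.pairs⟩
    · refine Run7.h852.NW.past Run7.h811.NB.t_PAIR Run7.h842.NB.t_INV Run7.h811.NB.t_VEL
        Run7.h811.NB.t_ELL Run7.h961.NB.t_FIN hN m hm σ hσ E ψ φ hfl hψ x hx _ hmot
        ⟨?_, ?_, ?_⟩
      · exact tendsto_neg_atBot_atTop.comp (h.time.comp tendsto_neg_atTop_atBot)
      · intro i j hij
        obtain ⟨a, ha, h1⟩ := h.apart i j hij
        exact ⟨a, ha, tendsto_neg_atTop_atBot.eventually h1⟩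
      · intro k
        obtain ⟨R, h1⟩ := h.pairs k
        exact ⟨R, tendsto_neg_atTop_atBot.eventually h1⟩
  · by_contra hcon
    push Not at hcon
    exact two_clusters hN hm hφ hσ hx i j hij hcon.1 (fun k hk => hcon.2 k hk) hnw

end Pool.Agent.Results.MP_70f7a7_an.HyperbolicElliptic
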