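import Pool.Agent.Run7.h874.LE.Spat
import Pool.Agent.Run7.h874.LE.Kep
import Pool.Agent.Run7.h874.LE.Orb
import Pool.Agent.Results.MP_70f7a7_an.HyperbolicElliptic

/-!
# Orbits through Lagrange's elliptic solutions are not interior to the nonwandering set

Three bodies in space.  For an open set of masses (`m 0` and `m 1` almost equal, `m 2` small) let
`p` be a point whose orbit passes through the state of a solution in a plane that stays from then on
close to a Lagrange homographic solution (equilateral triangle) of small eccentricity; for example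
any point of a Lagrange relative equilibrium, or of an orbit in a plane that tends to one.  Then
every neighbourhood of `p` contains an open set that meets the energy surface of `p` in wandering
points only, for every complete reparametrized flow: `p` is not an interior point of the closure of
the nonwandering set.
-/

set_option autoImplicit false

namespace Pool.Agent.Results.MP_70f7a7_an.LagrangeLimitOfWandering

open Set Filter Topology Run7.h874.LE

/-- The space `R³`. -/
abbrev R3 : Type := EuclideanSpace ℝ (Fin 3)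

/-- Phase space: pairs (positions, momenta) of three bodies. -/
abbrev Phase : Type := (Fin 3 → R3) × (Fin 3 → R3)

/-- The energy surface `H = E` of the reduced three-body problem (centre of mass `0`, total
momentum `0`, no collisions). -/
def surface (m : Fin 3 → ℝ) (E : ℝ) : Set Phase :=
  {x | (∀ i j, i ≠ j → x.1 i ≠ x.1 j) ∧ ∑ i, m i • x.1 i = 0 ∧ ∑ i, x.2 i = 0 ∧
    ∑ i, ‖x.2 i‖ ^ 2 / (2 * m i) - ∑ i, ∑ j, m i * m j / ‖x.1 i - x.1 j‖ / 2 = E}

/-- `φ` is the complete flow on the energy surface obtained from the three-body flow by a smooth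
positive change of time `ψ`. -/
structure IsReparametrizedFlow (m : Fin 3 → ℝ) (E : ℝ) (ψ : Phase → ℝ)
    (φ : ℝ → Phase → Phase) : Prop where
  /-- `ψ` is smooth outside collisions -/
  smooth : ContDiffOn ℝ ((⊤ : ℕ∞) : WithTop ℕ∞) ψ {x | ∀ i j, i ≠ j → x.1 i ≠ x.1 j}
  /-- `ψ` is positive outside collisions -/
  pos : ∀ x : Phase, (∀ i j, i ≠ j → x.1 i ≠ x.1 j) → 0 < ψ x
  /-- orbits exist for all times and solve the reparametrized equations of motion -/
  flow : ∀ x ∈ surface m E, φ 0 x = x ∧ ∀ t : ℝ, φ t x ∈ surface m E ∧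
    HasDerivAt (fun s : ℝ => φ s x)
      (ψ (φ t x) • ((fun i => (m i)⁻¹ • (φ t x).2 i),
        (fun i => ∑ j, (m i * m j / ‖(φ t x).1 j - (φ t x).1 i‖ ^ 3) •
          ((φ t x).1 j - (φ t x).1 i)))) t

/-- `x` is a nonwandering point of the flow `φ` on the energy surface `S`. -/
def IsNonwandering (S : Set Phase) (φ : ℝ → Phase → Phase) (x : Phase) : Prop :=
  ∀ V : Set Phase, IsOpen V → x ∈ V → ∀ T : ℝ, ∃ t : ℝ, T < t ∧ ∃ y ∈ V ∩ S, φ t y ∈ V

/-- Planar states of three bodies: positions and velocities in `ℂ`. -/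
abbrev State := (Fin 3 → ℂ) × (Fin 3 → ℂ)

/-- Newtonian acceleration of body `a` in the plane. -/
noncomputable def accel (m : Fin 3 → ℝ) (q : Fin 3 → ℂ) (a : Fin 3) : ℂ :=
  ∑ b ∈ Finset.univ.erase a, ((m b / ‖q b - q a‖ ^ 3 : ℝ) : ℂ) * (q b - q a)

/-- `x = (q, v)` is a collision-free solution of the planar problem on `[0, ∞)`. -/
def Solves (m : Fin 3 → ℝ) (x : ℝ → State) : Prop :=
  ∀ t, 0 ≤ t → (∀ a b, a ≠ b → (x t).1 a ≠ (x t).1 b) ∧
    HasDerivWithinAt x ((x t).2, accel m (x t).1) (Ici 0) t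

/-- Position on the Kepler ellipse with eccentricity `e` and semi-major axis `1`, at the
eccentric anomaly `θ`. -/
noncomputable def ellPos (e θ : ℝ) : ℂ :=
  ((Real.cos θ - e : ℝ) : ℂ) + ((Real.sqrt (1 - e ^ 2) * Real.sin θ : ℝ) : ℂ) * Complex.I

/-- Velocity on that ellipse with respect to the mean anomaly. -/
noncomputable def ellVel (e θ : ℝ) : ℂ :=
  (((-Real.sin θ : ℝ) : ℂ) + ((Real.sqrt (1 - e ^ 2) * Real.cos θ : ℝ) : ℂ) * Complex.I) /
    ((1 - e * Real.cos θ : ℝ) : ℂ)

/-- For all `t ≥ 0` the relative positions and velocities of `x` stay within the relative error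
`η` of those of a Lagrange homographic solution with eccentricity `e`: an equilateral triangle
(shape `c`), `θ` the eccentric anomaly (Kepler's equation), semi-major axis `L`, mean motion `ω`
(Kepler's third law). -/
def NearLagrange (η e : ℝ) (m : Fin 3 → ℝ) (x : ℝ → State) : Prop :=
  ∃ (L ω s : ℝ) (u c : ℂ) (θ : ℝ → ℝ), 0 < L ∧ ω ≠ 0 ∧ ω ^ 2 * L ^ 3 = m 0 + m 1 + m 2 ∧
    ‖u‖ = 1 ∧ c ^ 2 - c + 1 = 0 ∧ (∀ t, θ t - e * Real.sin (θ t) = ω * t + s) ∧
    ∀ t, 0 ≤ t →
      ‖((x t).1 1 - (x t).1 0) - L * u * ellPos e (θ t)‖ ≤ η * L ∧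
      ‖((x t).1 2 - (x t).1 0) - c * (L * u * ellPos e (θ t))‖ ≤ η * L ∧
      ‖((x t).2 1 - (x t).2 0) - ω * L * u * ellVel e (θ t)‖ ≤ η * (|ω| * L) ∧
      ‖((x t).2 2 - (x t).2 0) - c * (ω * L * u * ellVel e (θ t))‖ ≤ η * (|ω| * L)

/-- The planar state `w`, placed in space by the isometric embedding `J` of the plane (positions and
momenta). -/
noncomputable def inSpace (m : Fin 3 → ℝ) (J : ℂ →ₗᵢ[ℝ] R3) (w : State) : Phase :=
  (fun i => J (w.1 i), fun i => m i • J (w.2 i))

/-- There is `η > 0` such that for all positive masses with `|m 0 - m 1| ≤ η (m 0 + m 1)` and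
`m 2 ≤ η (m 0 + m 1)`, all eccentricities `e ≤ η` and all energies `E < 0`: let `x` be a planar
solution that stays `η`-close to a Lagrange homographic solution of eccentricity `e`, and let `p` be
a point of the energy surface whose orbit, under a complete reparametrized flow, passes (at some
time `T`, positive or negative) through the state `x 0` placed in space. Then every neighbourhood of
`p` contains an open set `V` that meets the energy surface and contains only wandering points of
it. -/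
theorem result : ∃ η : ℝ, 0 < η ∧ ∀ m : Fin 3 → ℝ, (∀ a, 0 < m a) →
    |m 0 - m 1| ≤ η * (m 0 + m 1) → m 2 ≤ η * (m 0 + m 1) →
    ∀ e : ℝ, 0 ≤ e → e ≤ η → ∀ x : ℝ → State, Solves m x → NearLagrange η e m x →
    ∀ E : ℝ, E < 0 → ∀ (ψ : Phase → ℝ) (φ : ℝ → Phase → Phase), IsReparametrizedFlow m E ψ φ →
    ∀ p ∈ surface m E, ∀ (J : ℂ →ₗᵢ[ℝ] R3) (T : ℝ), φ T p = inSpace m J (x 0) →
    ∀ U ∈ 𝓝 p, ∃ V ⊆ U, IsOpen V ∧ (V ∩ surface m E).Nonempty ∧
      ∀ y ∈ V ∩ surface m E, ¬ IsNonwandering (surface m E) φ y := by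
  obtain ⟨η, hη, hG⟩ := ell_general
  refine ⟨η, hη, ?_⟩
  intro m mpos m1 m2 e he0 he1 x hx hn E hE ψ φ hφ p hp J T hT
  have hacc := hG m mpos m1 m2 e he0 he1 x hx hn
  have hxS : inSpace m J (x 0) ∈ surface m E := by
    rw [← hT]; exact ((hφ.flow p hp).2 T).1
  have hfl : HyperbolicElliptic.IsReparametrizedFlow m E ψ φ := ⟨hφ.smooth, hφ.pos, hφ.flow⟩
  have hfl' := HyperbolicElliptic.isFl hfl
  have hψ : ContDiffOn ℝ 1 ψ (Pool.Agent.Y516.NW.Free 3) := hφ.smooth.of_le (by norm_num)
  refine wand_back mpos hfl' hψ hp T ?_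
  rw [hT]
  intro U hU
  obtain ⟨s0, s1, s2, s3⟩ := surf_em mpos J hxS
  obtain ⟨w, hwU, hwe, w1, w2, w3⟩ := hacc.fixed mpos hE s0 s1 s2 s3 _
    ((Em_cont m J).continuousAt hU)
  obtain ⟨X, hX0, hX, α, ρ, hα, hX3⟩ := hwe
  have hw0 : ∀ a b, a ≠ b → w.1 a ≠ w.1 b := by
    have := (hX 0 (Set.mem_Ici.mpr le_rfl)).1
    rw [hX0] at this
    exact this
  have hwS : Em m J w ∈ surface m E := em_surf mpos J hw0 w1 w2 w3
  have hyS : Em m J (X 0) ∈ Pool.Agent.Y516.NW.Surf m E := by rw [hX0]; exact hwS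
  have hfe := flow_eq mpos hfl' J hX hyS
  have htop := time_top mpos hfl' J hX hyS
  rw [hX0] at hfe htop
  -- the final motion is hyperbolic-elliptic with the binary {0, 1}
  have hnw : ¬ IsNonwandering (surface m E) φ (Em m J w) := by
    refine (HyperbolicElliptic.result 3 le_rfl m mpos E ψ φ hfl (fun i => sw i) sws (Em m J w)
      hwS).1 (Or.inl ?_)
    have hev := htop.eventually hX3
    have hpos : ∀ (t : ℝ), 0 ≤ t → ∀ i j, ‖(φ t (Em m J w)).1 i - (φ t (Em m J w)).1 j‖
        = ‖(X (∫ s in (0:ℝ)..t, ψ (φ s (Em m J w)))).1 i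
          - (X (∫ s in (0:ℝ)..t, ψ (φ s (Em m J w)))).1 j‖ := by
      intro t ht i j
      have h1 := (hfe t ht).2
      have h2 : (φ t (Em m J w)).1
          = (Em m J (X (∫ s in (0:ℝ)..t, ψ (φ s (Em m J w))))).1 := (Prod.ext_iff.mp h1).1
      rw [h2]
      show ‖J _ - J _‖ = _
      rw [← map_sub, J.norm_map]
    refine ⟨htop, ?_, ?_⟩
    · intro i j hij
      refine ⟨α, hα, ?_⟩
      filter_upwards [hev, eventually_ge_atTop (0:ℝ)] with t ht ht0
      rw [hpos t ht0]
      obtain ⟨t1, t2, -⟩ := ht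
      obtain ⟨hij1, hij2⟩ := hij
      unfold HyperbolicElliptic.newtonTime
      fin_cases i <;> fin_cases j
      · exact absurd rfl hij1
      · exact absurd sw0 hij2
      · rw [norm_sub_rev]; exact t1
      · exact absurd sw1 hij2
      · exact absurd rfl hij1
      · rw [norm_sub_rev]; exact t2
      · exact t1
      · exact t2
      · exact absurd rfl hij1
    · intro i
      refine ⟨max ρ 0, ?_⟩
      filter_upwards [hev, eventually_ge_atTop (0:ℝ)] with t ht ht0
      rw [hpos t ht0]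
      obtain ⟨-, -, t3⟩ := ht
      fin_cases i
      · rw [show sw (⟨0, by omega⟩ : Fin 3) = 1 from sw0, norm_sub_rev]
        exact t3.trans (le_max_left _ _)
      · rw [show sw (⟨1, by omega⟩ : Fin 3) = 0 from sw1]
        exact t3.trans (le_max_left _ _)
      · rw [show sw (⟨2, by omega⟩ : Fin 3) = 2 from sw2]
        have : (⟨2, by omega⟩ : Fin 3) = 2 := rfl
        rw [this, sub_self, norm_zero]
        exact le_max_right _ _
  exact ⟨Em m J w, hwU, hwS, hnw⟩

end Pool.Agent.Results.MP_70f7a7_an.LagrangeLimitOfWandering
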